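import Pool.Agent.MWGN.StmtsC

/-!
# MWGN, row INC: insertion keeps all conditions
-/

namespace Pool.Agent.MWGN.H27I

open Pool.Agent.Helper14_MV Pool.Agent.Helper2_MV
open Pool.Agent.MWK (pre Gw)
open Pool.Agent.MWF (Ap gaml)

theorem pre_in {X Y w : List ℕ} {q : ℕ} (h : q ∈ X) (hw : w = X ++ Y) : pre w q = pre X q := by
  subst hw
  exact MWK.pre_append_mem h Y

theorem pre_out {X Y w : List ℕ} {q : ℕ} (h : q ∉ X) (hw : w = X ++ Y) :
    pre w q = X ++ pre Y q := by
  subst hw
  exact MWK.pre_append h Y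

/-- the numbers -/
theorem num (h1 : InpStmt) {E A M N R : List ℕ} {k : ℕ} (h : Ins E M N k) {u v : List ℕ}
    (hu : u = A ++ (E ++ (M ++ (E ++ R)))) (hv : v = A ++ (E ++ (N ++ (E ++ R)))) (q : ℕ) :
    (q ∈ A ++ E ∧ pre u q = pre v q ∧ ∀ c, nn u c q ≤ A.count c + E.count c) ∨
    (q ∉ A ++ E ∧ q ∈ M ∧ ∃ k' ≤ k, ∀ c, nn v c q = nn u c q + k' * E.count c ∧
      nn u c q = A.count c + (E.count c + (pre M q).count c)) ∨
    (q ∉ A ++ E ∧ q ∉ M ∧ ∀ c, nn v c q = nn u c q + k * E.count c ∧
      A.count c + E.count c ≤ nn u c q) := by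
  obtain ⟨i1, i2, i3, i4⟩ := h1 E M N k h
  have hu2 : u = (A ++ E) ++ (M ++ (E ++ R)) := by rw [hu, List.append_assoc]
  have hv2 : v = (A ++ E) ++ (N ++ (E ++ R)) := by rw [hv, List.append_assoc]
  by_cases hq : q ∈ A ++ E
  · left
    have e1 := pre_in hq hu2
    have e2 := pre_in hq hv2
    refine ⟨hq, by rw [e1, e2], ?_⟩
    intro c
    have := MWK.count_pre_le (A ++ E) c q
    rw [List.count_append] at this
    unfold nn
    rw [e1]
    exact this
  · right
    have hqE : q ∉ E := fun h => hq (List.mem_append_right _ h)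
    have e1 := pre_out hq hu2
    have e2 := pre_out hq hv2
    by_cases hqM : q ∈ M
    · left
      have hqN : q ∈ N := (i2 q hqE).2 hqM
      rw [MWK.pre_append_mem hqM] at e1
      rw [MWK.pre_append_mem hqN] at e2
      obtain ⟨k', hk', -, hc⟩ := i3 q hqE
      refine ⟨hq, hqM, k', hk', ?_⟩
      intro c
      unfold nn
      rw [e1, e2]
      simp only [List.count_append]
      rw [hc c]
      constructor
      · omega
      · omega
    · right
      have hqN : q ∉ N := fun h => hqM ((i2 q hqE).1 h)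
      rw [MWK.pre_append hqM] at e1
      rw [MWK.pre_append hqN] at e2
      refine ⟨hq, hqM, ?_⟩
      intro c
      unfold nn
      rw [e1, e2]
      simp only [List.count_append]
      rw [i1 c]
      constructor
      · omega
      · omega

theorem cnt (h1 : InpStmt) {E A M N R : List ℕ} {k : ℕ} (h : Ins E M N k) {u v : List ℕ}
    (hu : u = A ++ (E ++ (M ++ (E ++ R)))) (hv : v = A ++ (E ++ (N ++ (E ++ R)))) (c : ℕ) :
    u.count c = A.count c + (E.count c + (M.count c + (E.count c + R.count c))) ∧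
    v.count c = u.count c + k * E.count c := by
  obtain ⟨i1, -, -, -⟩ := h1 E M N k h
  rw [hu, hv]
  simp only [List.count_append]
  rw [i1 c]
  constructor
  · trivial
  · omega

/-- the last claim for `q` in front of `q'` -/
theorem mono (h1 : InpStmt) {E A M N R : List ℕ} {k : ℕ} (h : Ins E M N k) {u v : List ℕ}
    (hu : u = A ++ (E ++ (M ++ (E ++ R)))) (hv : v = A ++ (E ++ (N ++ (E ++ R)))) (c q q' : ℕ)
    (hqq : q ∈ pre u q') (he : nn v c q = nn v c q') : nn u c q = nn u c q' := by
  have hle : nn u c q ≤ nn u c q' := MWK.count_pre_mono hqq c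
  have hu2 : u = (A ++ E) ++ (M ++ (E ++ R)) := by rw [hu, List.append_assoc]
  have hv2 : v = (A ++ E) ++ (N ++ (E ++ R)) := by rw [hv, List.append_assoc]
  have n1 := num h1 h hu hv q
  have n2 := num h1 h hu hv q'
  rcases n2 with ⟨a1, a2, a3⟩ | ⟨a1, a2, k₂, hk₂, a3⟩ | ⟨a1, a2, a3⟩
  · -- q' in A E
    have hq : q ∈ A ++ E := by
      rw [pre_in a1 hu2] at hqq
      exact MWK.mem_of_mem_pre hqq
    rcases n1 with ⟨b1, b2, b3⟩ | ⟨b1, -⟩ | ⟨b1, -⟩
    · have x1 : nn u c q = nn v c q := by unfold nn; rw [b2]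
      have x2 : nn u c q' = nn v c q' := by unfold nn; rw [a2]
      omega
    · exact absurd hq b1
    · exact absurd hq b1
  · rcases n1 with ⟨b1, b2, b3⟩ | ⟨b1, b2', k₁, hk₁, b3⟩ | ⟨b1, b2', b3⟩
    · have x1 : nn u c q = nn v c q := by unfold nn; rw [b2]
      have := (a3 c).1
      have h0 := Nat.zero_le (k₂ * E.count c)
      omega
    · -- both in M
      have hqM : q ∈ pre M q' := by
        rw [pre_out a1 hu2, MWK.pre_append_mem a2] at hqq
        rcases List.mem_append.1 hqq with h | h
        · exact absurd h b1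
        · exact h
      have hqE : q ∉ E := fun h => b1 (List.mem_append_right _ h)
      have hqE' : q' ∉ E := fun h => a1 (List.mem_append_right _ h)
      obtain ⟨i1, i2, i3, i4⟩ := h1 E M N k h
      obtain ⟨m1, m2, hm, f1, f2⟩ := i4 q q' hqE hqE' hqM
      have hqN : q ∈ N := (i2 q hqE).2 b2'
      have hqN' : q' ∈ N := (i2 q' hqE').2 a2
      have x1 : nn v c q = (A ++ E).count c + ((pre M q).count c + m1 * E.count c) := by
        unfold nn
        rw [pre_out b1 hv2, MWK.pre_append_mem hqN, List.count_append, f1]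
      have x2 : nn v c q' = (A ++ E).count c + ((pre M q').count c + m2 * E.count c) := by
        unfold nn
        rw [pre_out a1 hv2, MWK.pre_append_mem hqN', List.count_append, f2]
      have y1 : nn u c q = (A ++ E).count c + (pre M q).count c := by
        unfold nn
        rw [pre_out b1 hu2, MWK.pre_append_mem b2', List.count_append]
      have y2 : nn u c q' = (A ++ E).count c + (pre M q').count c := by
        unfold nn
        rw [pre_out a1 hu2, MWK.pre_append_mem a2, List.count_append]
      have hmul : m1 * E.count c ≤ m2 * E.count c := Nat.mul_le_mul_right _ hm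
      omega
    · -- q not in M, but in front of q' in M
      exfalso
      rw [pre_out a1 hu2, MWK.pre_append_mem a2] at hqq
      rcases List.mem_append.1 hqq with h | h
      · exact absurd h b1
      · exact b2' (MWK.mem_of_mem_pre h)
  · rcases n1 with ⟨b1, b2, b3⟩ | ⟨b1, b2', k₁, hk₁, b3⟩ | ⟨b1, b2', b3⟩
    · have x1 : nn u c q = nn v c q := by unfold nn; rw [b2]
      have := (a3 c).1
      have h0 := Nat.zero_le (k * E.count c)
      omega
    · have x1 := (b3 c).1
      have x2 := (a3 c).1
      have hmul : k₁ * E.count c ≤ k * E.count c := Nat.mul_le_mul_right _ hk₁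
      omega
    · have x1 := (b3 c).1
      have x2 := (a3 c).1
      omega

theorem inc (h1 : InpStmt) : IncStmt := by
  intro e A M N R k h u v hu hv
  have hE : ∀ c, (e ++ e).count c = 0 ∨ 2 ≤ (e ++ e).count c := by
    intro c
    rw [List.count_append]
    omega
  have hcnt := cnt h1 h hu hv
  have hnum := num h1 h hu hv
  refine ⟨?_, ?_, ?_, ?_, ?_, ?_⟩
  · intro c
    obtain ⟨c1, c2⟩ := hcnt c
    rcases hE c with hz | hz
    · rw [hz, Nat.mul_zero] at c2
      omega
    · have h0 := Nat.zero_le (k * (e ++ e).count c)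
      omega
  · intro c
    obtain ⟨c1, c2⟩ := hcnt c
    rcases hE c with hz | hz
    · rw [hz, Nat.mul_zero] at c2
      omega
    · have h0 := Nat.zero_le (k * (e ++ e).count c)
      omega
  · intro c q
    rcases hnum q with ⟨a1, a2, a3⟩ | ⟨a1, a2, k₂, hk₂, a3⟩ | ⟨a1, a2, a3⟩
    · unfold nn
      rw [a2]
    · obtain ⟨x1, x2⟩ := a3 c
      rcases hE c with hz | hz
      · rw [hz, Nat.mul_zero] at x1
        omega
      · omega
    · obtain ⟨x1, x2⟩ := a3 c
      rcases hE c with hz | hz
      · rw [hz, Nat.mul_zero] at x1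
        omega
      · omega
  · intro c q
    rcases hnum q with ⟨a1, a2, a3⟩ | ⟨a1, a2, k₂, hk₂, a3⟩ | ⟨a1, a2, a3⟩
    · unfold nn
      rw [a2]
    · obtain ⟨x1, x2⟩ := a3 c
      rcases hE c with hz | hz
      · rw [hz, Nat.mul_zero] at x1
        omega
      · omega
    · obtain ⟨x1, x2⟩ := a3 c
      rcases hE c with hz | hz
      · rw [hz, Nat.mul_zero] at x1
        omega
      · omega
  · intro c q
    obtain ⟨c1, c2⟩ := hcnt c
    rcases hnum q with ⟨a1, a2, a3⟩ | ⟨a1, a2, k₂, hk₂, a3⟩ | ⟨a1, a2, a3⟩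
    · have x1 : nn v c q = nn u c q := by unfold nn; rw [a2]
      have x2 := a3 c
      rcases hE c with hz | hz
      · rw [hz, Nat.mul_zero] at c2
        omega
      · have h0 := Nat.zero_le (k * (e ++ e).count c)
        omega
    · obtain ⟨x1, x2⟩ := a3 c
      have x3 := MWK.count_pre_le M c q
      rcases hE c with hz | hz
      · rw [hz, Nat.mul_zero] at x1 c2
        omega
      · have hmul : k₂ * (e ++ e).count c ≤ k * (e ++ e).count c := Nat.mul_le_mul_right _ hk₂
        omega
    · obtain ⟨x1, x2⟩ := a3 c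
      omega
  · intro c q q' hq hq' he
    by_cases hqq : q = q'
    · rw [hqq]
    rcases MWK.pre_total hq hqq with h2 | h2
    · exact mono h1 h hu hv c q q' h2 he
    · exact (mono h1 h hu hv c q' q h2 he.symm).symm

end Pool.Agent.MWGN.H27I
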