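import Pool.Agent.MWGN.StmtsA
import Pool.Agent.Helper27_MWF.POW
import Pool.Agent.Helper77_MWF.CTT
import Pool.Agent.Helper42_MWF.SIM

/-!
# MWGN, row OLR: position of a letter relative to a simple letter
-/

namespace Pool.Agent.MWGN.H27

open Pool.Agent.Helper14_MV Pool.Agent.Helper2_MV
open Pool.Agent.MWK (pre Gw)
open Pool.Agent.MWF (Ap gaml)

theorem flat_one {c s : ℕ} (hcs : c ≠ s) : ∀ l : List ℕ, s ∉ l →
    l.flatMap (fun d => if d = c then [0] else if d = s then [1] else []) =
      List.replicate (l.count c) 0 := by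
  intro l
  induction l with
  | nil => intro _; rfl
  | cons d l ih =>
    intro hs
    have h1 : s ∉ l := fun h => hs (List.mem_cons_of_mem _ h)
    have h2 : d ≠ s := by
      rintro rfl
      exact hs List.mem_cons_self
    rw [List.flatMap_cons, ih h1]
    by_cases hd : d = c
    · subst hd
      rw [List.count_cons_self, if_pos rfl, List.replicate_succ]
      rfl
    · rw [List.count_cons_of_ne hd, if_neg hd, if_neg h2, List.nil_append]

/-- the form of a word with a simple letter -/
theorem form {w : List ℕ} {c s : ℕ} (h : w.count s = 1) (hcs : c ≠ s) :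
    ∃ b, w.count c = nn w c s + b ∧
      w.flatMap (fun d => if d = c then [0] else if d = s then [1] else []) =
        List.replicate (nn w c s) 0 ++ 1 :: List.replicate b 0 := by
  have hs : s ∈ w := by
    by_contra hn
    rw [List.count_eq_zero_of_not_mem hn] at h
    omega
  obtain ⟨B, hB⟩ := MWK.mem_split hs
  have hp : s ∉ pre w s := MWK.not_mem_pre w s
  have hsB : s ∉ B := by
    intro hm
    have h1 : w.count s = (pre w s).count s + (1 + B.count s) := by
      conv_lhs => rw [hB]
      rw [List.count_append, List.count_cons_self]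
      omega
    have h2 := List.count_pos_iff.2 hm
    omega
  refine ⟨B.count c, ?_, ?_⟩
  · unfold nn
    conv_lhs => rw [hB]
    rw [List.count_append, List.count_cons_of_ne (Ne.symm hcs)]
  · unfold nn
    conv_lhs => rw [hB]
    rw [List.flatMap_append, List.flatMap_cons, flat_one hcs _ hp, flat_one hcs _ hsB,
      if_neg (Ne.symm hcs), if_pos rfl]
    rfl

theorem olr (h1 : ClsStmt) : OlrStmt := by
  intro β hβ hE w w' hw c s hs hcs
  have hs' : w'.count s = 1 :=
    MWF.H42.sim MWF.H27.pow (MWF.H77.ctt MWF.H27.pow) β hβ.ap w w' hw s hs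
  obtain ⟨b, hb, eb⟩ := form hs hcs
  obtain ⟨b', hb', eb'⟩ := form hs' hcs
  have h2 := hw.sub (fun d => if d = c then [0] else if d = s then [1] else [])
  rw [eb, eb'] at h2
  obtain ⟨k1, k2, k3⟩ := h1 β hβ hE _ _ _ _ h2
  refine ⟨k1, k2, ?_⟩
  constructor
  · intro h
    have : b = 0 := by omega
    have := k3.1 this
    omega
  · intro h
    have : b' = 0 := by omega
    have := k3.2 this
    omega

end Pool.Agent.MWGN.H27
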